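import Pool.Agent.Helper61_ANP.SclM

/-!
# ACX: the scales with arbitrarily small probabilities of the bad blocks
-/

set_option autoImplicit false

open Finset Filter

open scoped NNReal

noncomputable section

namespace Pool.Agent.ACX.H22

open Pool.Agent.ANP Pool.Agent.ANP.H61 Pool.Agent.AND2B

/-- THE SCALES EXIST, and the bounds `QQ` of the probabilities of the bad blocks are at most
`sg (n + 1) ^ A`, `A` arbitrary -/
def SclStmt2 : Prop :=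
  ∀ (d : ℕ) (th : ℝ≥0) (c₁ : ℝ), 3 ≤ d → 1 / 2 ≤ th → th < 1 → 0 < c₁ →
    ∃ (C₁ : ℝ) (α J : ℕ), 4 * d + 4 ≤ α ∧ ∀ β : ℝ, 0 < β → ∀ A : ℝ,
    ∃ w₁ : ℝ, 0 < w₁ ∧ w₁ ≤ 1 ∧ ∀ (w : ℝ≥0) (t : ℝ) (M₀ : ℕ), 0 < w → (w : ℝ) ≤ w₁ → 0 < t →
      ∃ (N μ : ℕ) (kk l r Kn Dn : ℕ → ℕ), 2 ≤ N ∧ M₀ ≤ 2 ^ μ ∧
        Scal d th c₁ C₁ α J β w t N μ kk l r Kn Dn ∧
        ∀ n ≤ N, ∀ B, ANP.H72.QQ (Gt d μ J N l r).ch J
          (fun i => 2 * pf w th kk β N i.1 *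
            ((kk (i.1 + 1) : ℝ) - kk i.1 + ((2 ^ l i.1 : ℕ) : ℝ) ^ d)) n B ≤
          sg w th kk (n + 1) ^ A

/-- the bound of the probability that a block of level `n` is bad, exponent `A` -/
def qA (A C0 a m0 : ℕ) (e : ℕ → ℕ) (N n : ℕ) : ℝ := (1 / 2) ^ (A * lt C0 a m0 e N n)

theorem rec_expA (d a A l l' : ℕ) (hA : AA d a ≤ A) (hl : 1 ≤ l) (hl2 : l' ≤ (a + 2) * l) :
    d * (l' - l) * (2 * a + 4 + 1) + (1 + A * l') ≤ A * l * (2 * a + 4 + 1) := by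
  obtain ⟨r, rfl⟩ := Nat.exists_eq_add_of_le hA
  have h1 := rec_exp d a l l' hl hl2
  have h2 : r * l' ≤ r * l * (2 * a + 4 + 1) := by
    rw [mul_assoc]
    refine Nat.mul_le_mul_left _ (hl2.trans ?_)
    rw [mul_comm]
    exact Nat.mul_le_mul_left _ (by omega)
  have h3 : (AA d a + r) * l' = AA d a * l' + r * l' := by ring
  have h4 : (AA d a + r) * l * (2 * a + 4 + 1) =
      AA d a * l * (2 * a + 4 + 1) + r * l * (2 * a + 4 + 1) := by ring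
  rw [h3, h4]
  omega

section prob

variable {v a C0 m0 : ℕ} {s : ℕ → ℝ} {e : ℕ → ℕ} (H : Sq v a s e) (d N : ℕ)
  (hC : 5 ≤ C0) (hvm : m0 ≤ v)

include H hC hvm in
/-- the recursion -/
theorem q_recA (A : ℕ) (hA : AA d a ≤ A) (n : ℕ) :
    (((2 ^ (lt C0 a m0 e N (n + 1) - lt C0 a m0 e N n)) ^ d : ℕ) * qA A C0 a m0 e N n : ℝ) ^
      (2 * a + 4 + 1) ≤ qA A C0 a m0 e N (n + 1) / 2 := by
  have hl := l_ge H (m0 := m0) N hC n
  have hv1 := H.v1
  have h1 := rec_expA d a A (lt C0 a m0 e N n) (lt C0 a m0 e N (n + 1)) hA (by omega)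
    (l_succ H N hC hvm n)
  unfold qA
  push_cast
  rw [mul_pow, ← pow_mul, ← pow_mul, ← pow_mul]
  have h2 := half_pow ((lt C0 a m0 e N (n + 1) - lt C0 a m0 e N n) * (d * (2 * a + 4 + 1)))
    (A * lt C0 a m0 e N n * (2 * a + 4 + 1)) (1 + A * lt C0 a m0 e N (n + 1))
    (by
      have e1 : (lt C0 a m0 e N (n + 1) - lt C0 a m0 e N n) * (d * (2 * a + 4 + 1)) =
        d * (lt C0 a m0 e N (n + 1) - lt C0 a m0 e N n) * (2 * a + 4 + 1) := by ring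
      rw [e1]
      exact h1)
  refine h2.trans (le_of_eq ?_)
  rw [pow_add, pow_one]
  ring

include H hC in
/-- the probability of a failed trial -/
theorem pi_leA (A : ℕ) (c0 Cp : ℝ) (h : ℕ) (hc0 : 0 ≤ c0) (kk : ℕ → ℕ)
    (hkk : ∀ n, kk (n + 1) ≤ kk n + h * (e (n + 1) + 2)) (E : ℕ)
    (hE : ∀ e : ℕ, E ≤ e → (Real.log (max Cp 1) +
      (2 + h + (d + 1 + A) * (C0 * (a + 2)) : ℕ)) * ((e : ℝ) + 1) ≤ (2 : ℝ) ^ (c0 * e))
    (hvE : E ≤ v) (p : ℝ) (n : ℕ) (hn : n ≤ N) (hp0 : 0 ≤ p)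
    (hp : p ≤ Cp * Real.exp (-(s n ^ (-c0)))) :
    p * ((kk (n + 1) : ℝ) - kk n + ((2 ^ lt C0 a m0 e N n : ℕ) : ℝ) ^ d) ≤
      qA A C0 a m0 e N n / 2 := by
  have h1 := rp_lo (s n) c0 (e n) (H.pos n) (H.hi n) hc0
  have h2 := hE (e n) (hvE.trans (H.ge n))
  have hl : lt C0 a m0 e N n = C0 * (e (n + 1) + 1) := lt_of_le hn
  set l := lt C0 a m0 e N n with hldef
  have hl2 : l ≤ C0 * (a + 2) * (e n + 1) := by
    rw [hl, mul_assoc]
    refine Nat.mul_le_mul_left _ ?_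
    have h3 := H.e2 n
    have : (a + 2) * (e n + 1) = (a + 1) * (e n + 1) + (e n + 1) := by ring
    omega
  have hel : e (n + 1) + 2 ≤ 2 ^ l := by
    have h3 : e (n + 1) + 1 < 2 ^ (e (n + 1) + 1) := Nat.lt_two_pow_self
    have h4 : (2 : ℕ) ^ (e (n + 1) + 1) ≤ 2 ^ l := by
      refine Nat.pow_le_pow_right (by norm_num) ?_
      rw [hl]
      exact Nat.le_mul_of_pos_left _ (by omega)
    omega
  -- the number of trials
  have hnum : ((kk (n + 1) : ℝ) - kk n + ((2 ^ l : ℕ) : ℝ) ^ d) ≤ 2 ^ (1 + h + (d + 1) * l) := by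
    have h5 : ((kk (n + 1) : ℝ) - kk n) ≤ h * ((e (n + 1) : ℝ) + 2) := by
      have : ((kk (n + 1) : ℕ) : ℝ) ≤ ((kk n + h * (e (n + 1) + 2) : ℕ) : ℝ) := by
        exact_mod_cast hkk n
      push_cast at this
      linarith
    have h6 : (h : ℝ) ≤ 2 ^ h := by exact_mod_cast (Nat.lt_two_pow_self (n := h)).le
    have h7 : ((e (n + 1) : ℝ) + 2) ≤ 2 ^ l := by exact_mod_cast hel
    have h8 : (h : ℝ) * ((e (n + 1) : ℝ) + 2) ≤ 2 ^ h * 2 ^ l :=
      mul_le_mul h6 h7 (by positivity) (by positivity)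
    have h9 : (2 : ℝ) ^ h * 2 ^ l ≤ 2 ^ (h + (d + 1) * l) := by
      rw [← pow_add]
      refine pow_le_pow_right₀ (by norm_num) ?_
      have : 1 * l ≤ (d + 1) * l := Nat.mul_le_mul_right _ (by omega)
      omega
    have h10 : ((2 ^ l : ℕ) : ℝ) ^ d ≤ 2 ^ (h + (d + 1) * l) := by
      push_cast
      rw [← pow_mul]
      refine pow_le_pow_right₀ (by norm_num) ?_
      have : (d + 1) * l = l * d + l := by ring
      omega
    have h11 : (2 : ℝ) ^ (1 + h + (d + 1) * l) = 2 * 2 ^ (h + (d + 1) * l) := by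
      rw [add_assoc, pow_add, pow_one]
    rw [h11]
    linarith
  -- the exponential
  have hexp : max Cp 1 * 2 ^ (2 + h + (d + 1 + A) * l) ≤ Real.exp (s n ^ (-c0)) := by
    have hm : 0 < max Cp 1 := lt_max_of_lt_right one_pos
    have hlog0 : 0 ≤ Real.log (max Cp 1) := Real.log_nonneg (le_max_right _ _)
    have h3 : max Cp 1 * 2 ^ (2 + h + (d + 1 + A) * l) =
        Real.exp (Real.log (max Cp 1) + ((2 + h + (d + 1 + A) * l : ℕ) : ℝ) * Real.log 2) := by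
      rw [Real.exp_add, Real.exp_log hm, mul_comm (((2 + h + (d + 1 + A) * l : ℕ) : ℝ)),
        Real.exp_mul, Real.exp_log (by norm_num), Real.rpow_natCast]
    rw [h3, Real.exp_le_exp]
    refine le_trans ?_ h1
    refine le_trans ?_ h2
    have h4 : ((2 + h + (d + 1 + A) * l : ℕ) : ℝ) ≤
        ((2 + h + (d + 1 + A) * (C0 * (a + 2)) : ℕ) : ℝ) * ((e n : ℝ) + 1) := by
      have h5 : 2 + h + (d + 1 + A) * l ≤
          (2 + h + (d + 1 + A) * (C0 * (a + 2))) * (e n + 1) := by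
        have h6 : (d + 1 + A) * l ≤ (d + 1 + A) * (C0 * (a + 2) * (e n + 1)) :=
          Nat.mul_le_mul_left _ hl2
        have h7 : (2 + h + (d + 1 + A) * (C0 * (a + 2))) * (e n + 1) =
            (2 + h) * (e n + 1) + (d + 1 + A) * (C0 * (a + 2) * (e n + 1)) := by ring
        have h8 : (2 + h) * 1 ≤ (2 + h) * (e n + 1) := Nat.mul_le_mul_left _ (by omega)
        omega
      exact_mod_cast h5
    have hlog2 : Real.log 2 ≤ 1 := by
      have := Real.log_two_lt_d9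
      linarith
    have hlog2' : 0 ≤ Real.log 2 := Real.log_nonneg (by norm_num)
    have h9 : (0 : ℝ) ≤ ((2 + h + (d + 1 + A) * l : ℕ) : ℝ) := by positivity
    have h10 : (0 : ℝ) ≤ e n := by positivity
    nlinarith
  have hCp : Cp ≤ max Cp 1 := le_max_left _ _
  have hnum0 : (0 : ℝ) ≤ (kk (n + 1) : ℝ) - kk n + ((2 ^ l : ℕ) : ℝ) ^ d ∨
      (kk (n + 1) : ℝ) - kk n + ((2 ^ l : ℕ) : ℝ) ^ d < 0 := le_or_gt _ _
  have hpe : p ≤ max Cp 1 * Real.exp (-(s n ^ (-c0))) :=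
    hp.trans (mul_le_mul_of_nonneg_right hCp (Real.exp_pos _).le)
  calc p * ((kk (n + 1) : ℝ) - kk n + ((2 ^ l : ℕ) : ℝ) ^ d)
      ≤ p * 2 ^ (1 + h + (d + 1) * l) := mul_le_mul_of_nonneg_left hnum hp0
    _ ≤ max Cp 1 * Real.exp (-(s n ^ (-c0))) * 2 ^ (1 + h + (d + 1) * l) :=
        mul_le_mul_of_nonneg_right hpe (by positivity)
    _ ≤ qA A C0 a m0 e N n / 2 := by
        rw [Real.exp_neg]
        have hX : 0 < Real.exp (s n ^ (-c0)) := Real.exp_pos _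
        rw [mul_right_comm, ← div_eq_mul_inv, div_le_iff₀ hX]
        unfold qA
        rw [← hldef]
        have h12 : (1 / 2 : ℝ) ^ (A * l) / 2 * (max Cp 1 * 2 ^ (2 + h + (d + 1 + A) * l)) =
            max Cp 1 * 2 ^ (1 + h + (d + 1) * l) := by
          have h13 : (2 : ℝ) ^ (2 + h + (d + 1 + A) * l) =
              2 * 2 ^ (1 + h + (d + 1) * l) * 2 ^ (A * l) := by
            rw [mul_assoc, ← pow_add, mul_comm (2 : ℝ), ← pow_succ]
            congr 1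
            ring
          rw [h13, one_div, inv_pow]
          field_simp
        rw [← h12]
        exact mul_le_mul_of_nonneg_left hexp (by positivity)


include H hC hvm in
/-- the bounds of the probabilities of the bad blocks -/
theorem qq_fin (hmono : Monotone (lt C0 a m0 e N)) (J : ℕ) (hJ : J = 2 * a + 4) (A' : ℕ)
    (hA : AA d a ≤ A') (x : ℕ → ℝ) (h0 : ∀ n, 0 ≤ x n)
    (hx : ∀ n, x n ≤ qA A' C0 a m0 e N n / 2) (A : ℝ) (hA5 : A ≤ ((A' * C0 : ℕ) : ℝ)) (n : ℕ)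
    (hn : n ≤ N) (B : Fin d → ZMod (2 ^ H61.mt C0 a e N)) :
    ANP.H72.QQ (Gt d (H61.mt C0 a e N) J N (lt C0 a m0 e N) (rt C0 a m0 e N)).ch J
      (fun i => x i.1) n B ≤ s (n + 1) ^ A := by
  have hq0 : ∀ n, 0 ≤ qA A' C0 a m0 e N n := fun n => by
    unfold qA
    positivity
  have h1 := ANP.H72.qq_start (J := J) (x := fun i => x i.1)
    (fun c => h0 c.1) (t := fun n => qA A' C0 a m0 e N n / 2)
    (q := qA A' C0 a m0 e N)
    (K := fun n => (2 ^ (lt C0 a m0 e N (n + 1) - lt C0 a m0 e N n)) ^ d)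
    (ch := (Gt d (H61.mt C0 a e N) J N (lt C0 a m0 e N) (rt C0 a m0 e N)).ch)
    (fun n B => hx n)
    (fun n B => trm d (H61.mt C0 a e N) (lt C0 a m0 e N) _ hmono J N n B)
    (by have := hq0 0; linarith) (fun n => by
      have h1 := q_recA H (m0 := m0) d N hC hvm A' hA n
      rw [hJ]
      linarith) n B
  refine h1.trans ?_
  have hs0 := H.pos (n + 1)
  have h2 : ((1 : ℝ) / 2) ^ (e (n + 1) + 1) ≤ s (n + 1) := by
    have h3 := H.lo (n + 1)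
    have h4 : ((1 : ℝ) / 2) ^ (e (n + 1) + 1) * 2 ^ (e (n + 1) + 1) = 1 := by
      rw [← mul_pow]
      norm_num
    have h5 : (0 : ℝ) < 2 ^ (e (n + 1) + 1) := by positivity
    refine le_of_mul_le_mul_right ?_ h5
    rw [h4]
    exact h3
  have h3 : qA A' C0 a m0 e N n ≤ s (n + 1) ^ (A' * C0) := by
    unfold qA
    rw [lt_of_le hn]
    have h4 : A' * (C0 * (e (n + 1) + 1)) = (e (n + 1) + 1) * (A' * C0) := by ring
    rw [h4, pow_mul]
    exact pow_le_pow_left₀ (by positivity) h2 _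
  refine h3.trans ?_
  rw [← Real.rpow_natCast]
  exact Real.rpow_le_rpow_of_exponent_ge hs0 (H.le_one _) hA5

end prob

theorem scl2 : SclStmt2 := by
  intro d th c₁ hd hth hth1 hc₁
  obtain ⟨c1, hc1def⟩ : ∃ c1, c1 = min c₁ 1 := ⟨_, rfl⟩
  have hc1 : 0 < c1 := by rw [hc1def]; exact lt_min hc₁ one_pos
  have hc1le : c1 ≤ c₁ := by rw [hc1def]; exact min_le_left _ _
  have hc1le1 : c1 ≤ 1 := by rw [hc1def]; exact min_le_right _ _
  have hθ : (0 : ℝ) < th := by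
    have h1 : (0 : ℝ≥0) < th := lt_of_lt_of_le (by norm_num) hth
    exact_mod_cast h1
  have hθ1 : (th : ℝ) < 1 := by exact_mod_cast hth1
  -- the ratio
  obtain ⟨a0, ha0⟩ := exists_nat_ge (((d * 5 + 1 : ℕ) : ℝ) / c1)
  obtain ⟨a, hadef⟩ : ∃ a, a = max (4 * d + 4) a0 := ⟨_, rfl⟩
  have had4 : 4 * d + 4 ≤ a := by rw [hadef]; exact le_max_left _ _
  have had : d + 2 ≤ a := by omega
  have ha2 : 2 ≤ a := by omega
  have haa : ((d * 5 + 1 : ℕ) : ℝ) ≤ c1 * a := by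
    have h1 : (a0 : ℝ) ≤ a := by rw [hadef]; exact_mod_cast le_max_right _ _
    rw [div_le_iff₀ hc1] at ha0
    nlinarith
  obtain ⟨J, hJ⟩ : ∃ J, J = 2 * a + 4 := ⟨_, rfl⟩
  refine ⟨6, a, J, by omega, fun β hβ A => ?_⟩
  obtain ⟨A0, hA0⟩ := exists_nat_ge A
  obtain ⟨A', hA'⟩ : ∃ A', A' = max (AA d a) A0 := ⟨_, rfl⟩
  have hAA : AA d a ≤ A' := by rw [hA']; exact le_max_left _ _
  have hA5 : A ≤ ((A' * 5 : ℕ) : ℝ) := by
    have h1 : (A0 : ℝ) ≤ (A' : ℝ) := by rw [hA']; exact_mod_cast le_max_right _ _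
    have h2 : (0 : ℝ) ≤ (A' : ℝ) := Nat.cast_nonneg _
    push_cast
    linarith
  -- the number of stages
  obtain ⟨h, hh⟩ := exists_pow_lt_of_lt_one (show (0 : ℝ) < 1 / 2 by norm_num) hθ1
  -- growth
  obtain ⟨E1, hE1⟩ := growth (5 / 4 - 6 / 5) (by norm_num) (((3 ^ d * J : ℕ) : ℝ) + 1)
  obtain ⟨E2, hE2⟩ := growth (13 / 10 - 5 / 4) (by norm_num) (2 * 3 ^ d : ℝ)
  obtain ⟨E3, hE3⟩ := growth β hβ (Real.log (max 2 1) +
      (2 + h + (d + 1 + A') * (5 * (a + 2)) : ℕ))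
  obtain ⟨m0, hm0⟩ : ∃ m0, m0 = 104 * (3 ^ d * J) := ⟨_, rfl⟩
  obtain ⟨v, hv⟩ : ∃ v, v = 5 + (2 * d + 2) + m0 + (3 ^ d * J) ^ 2 * 2 ^ (3 * d + d * 5) +
    E1 + E2 + E3 := ⟨_, rfl⟩
  refine ⟨min th (1 / 2 ^ v), lt_min hθ (by positivity), (min_le_left _ _).trans hθ1.le,
    fun w t M₀ hw hw1 ht => ?_⟩
  have hwr : (0 : ℝ) < w := by exact_mod_cast hw
  have hwθ : (w : ℝ) ≤ th := hw1.trans (min_le_left _ _)
  have hwv : (w : ℝ) * 2 ^ v ≤ 1 := by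
    have h1 := hw1.trans (min_le_right _ _)
    rwa [le_div_iff₀ (by positivity)] at h1
  obtain ⟨kk, e, HK⟩ := exists_kq (w : ℝ) th v a ha2 (by omega) hθ hθ1 hwr hwθ hwv
  obtain ⟨N1, hN1⟩ := exists_pow_lt_of_lt_one ht (show (1 / 2 : ℝ) < 1 by norm_num)
  obtain ⟨N, hN⟩ : ∃ N, N = N1 + M₀ + 2 := ⟨_, rfl⟩
  have H := HK.sq
  obtain ⟨s, hs⟩ : ∃ s : ℕ → ℝ, s = fun n => (w : ℝ) * (th : ℝ) ^ kk n := ⟨_, rfl⟩
  rw [← hs] at H
  have hsg : ∀ n, sg w th kk n = s n := by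
    intro n
    rw [hs]
    unfold sg cl
    push_cast
    rfl
  have hs1 : ∀ n, s n ≤ 1 := H.le_one
  have hC : 5 ≤ 5 := le_rfl
  have h3a : 5 + 1 ≤ 3 * a := by omega
  have hv5 : 5 ≤ v := by omega
  have hvm : m0 ≤ v := by omega
  have hvc : (3 ^ d * J) ^ 2 * 2 ^ (3 * d + d * 5) ≤ v := by omega
  have hvd : 2 * d + 2 ≤ v := by omega
  have hlin := H.lin
  have hmono : Monotone (lt 5 a m0 e N) := lmono H N hC h3a hv5 hvm
  have hDl : ∀ n ≤ N, ((DN d J 5 a m0 (6 / 5) s e N n : ℕ) : ℝ) ≤ s (n + 1) ^ (-(5 / 4 : ℝ)) :=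
    fun n hn => dn_le H d J N c1 (6 / 5) (5 / 4) hc1.le (by linarith) (by norm_num) haa hvc E1 hE1
      (by omega) n hn
  have hDs := dsum H (m0 := m0) d J N (6 / 5) (5 / 4) (by norm_num) hC (by norm_num) (by omega) hvd
    hvc hDl
  have hDc := dcon H (m0 := m0) (C0 := 5) d J N (6 / 5) (5 / 4) (13 / 10) (by norm_num) (by norm_num)
    E2 hE2 (by omega) hDl N le_rfl
  have hDm := dcon_last H (m0 := m0) (C0 := 5) d J N (6 / 5) (13 / 10) hC had (by norm_num)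
    (by norm_num) hvd hvc hDc
  have hkk : ∀ n, kk (n + 1) ≤ kk n + h * (e (n + 1) + 2) := fun n =>
    kq_count (w : ℝ) th v a h kk e hθ hθ1 hh.le hwr (hwθ.trans hθ1.le) HK n
  have hpf0 : ∀ n, 0 ≤ pf w th kk β N n := fun n => by
    unfold pf
    split_ifs <;> positivity
  have hnum0 : ∀ n, 0 ≤ ((kk (n + 1) : ℝ) - kk n + ((2 ^ lt 5 a m0 e N n : ℕ) : ℝ) ^ d) := by
    intro n
    have h1 : (kk n : ℝ) ≤ kk (n + 1) := by exact_mod_cast (HK.kks n).le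
    have h2 : (0 : ℝ) ≤ ((2 ^ lt 5 a m0 e N n : ℕ) : ℝ) ^ d := by positivity
    linarith
  have hq0 : ∀ n, 0 ≤ qA A' 5 a m0 e N n := fun n => by
    unfold qA
    positivity
  have hq1 : ∀ n, qA A' 5 a m0 e N n ≤ 1 := fun n => by
    unfold qA
    exact pow_le_one₀ (by norm_num) (by norm_num)
  have hqq : ∀ n, qA A' 5 a m0 e N n ≤ qn d 5 a m0 e N n := fun n => by
    unfold qA qn
    exact pow_le_pow_of_le_one (by norm_num) (by norm_num) (Nat.mul_le_mul_right _ hAA)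
  have hpi2 : ∀ n, 2 * pf w th kk β N n *
      ((kk (n + 1) : ℝ) - kk n + ((2 ^ lt 5 a m0 e N n : ℕ) : ℝ) ^ d) ≤ qA A' 5 a m0 e N n / 2 := by
    intro n
    rcases Nat.lt_or_ge N n with hn | hn
    · unfold pf
      rw [if_neg (by omega), mul_zero, zero_mul]
      have := hq0 n
      linarith
    · refine pi_leA H (m0 := m0) d N hC A' β 2 h hβ.le kk hkk E3 hE3 (by omega) _ n hn
        (mul_nonneg (by norm_num) (hpf0 n)) ?_
      unfold pf
      rw [if_pos hn, hsg]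
  have hpi : ∀ n, pf w th kk β N n *
      ((kk (n + 1) : ℝ) - kk n + ((2 ^ lt 5 a m0 e N n : ℕ) : ℝ) ^ d) ≤ qn d 5 a m0 e N n / 2 := by
    intro n
    have h1 := hpi2 n
    have h2 := hqq n
    have h3 := mul_nonneg (hpf0 n) (hnum0 n)
    have h4 := hq0 n
    linarith
  have hphi := phi_le H (m0 := m0) d N hC h3a hv5 hvm J hJ 0
  refine ⟨N, mt 5 a e N, kk, lt 5 a m0 e N, rt 5 a m0 e N, KN (6 / 5) s N,
    DN d J 5 a m0 (6 / 5) s e N, by omega, ?_, ?_, fun n hn B => ?_⟩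
  · -- M₀
    have h1 : M₀ ≤ mt 5 a e N := by
      unfold ANP.H61.mt
      have h2 : 1 * (5 * (e (N + 1) + 1)) ≤ a * (5 * (e (N + 1) + 1)) :=
        Nat.mul_le_mul_right _ (by omega)
      have h3 := hlin (N + 1)
      omega
    exact h1.trans (Nat.lt_two_pow_self).le
  have hmtN : (2 : ℝ) ^ mt 5 a e N = (2 : ℝ) ^ ((a : ℝ) * (5 * ((e (N + 1) : ℝ) + 1))) := by
    rw [← Real.rpow_natCast]
    unfold ANP.H61.mt
    push_cast
    rfl
  refine
    { k0 := HK.kk0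
      km := HK.kks
      low := fun n _ => ?_
      up := fun n _ => ?_
      fin := ?_
      lm := hmono
      rlow := fun n hn => ?_
      rup := fun n hn => ?_
      llow := fun n hn => ?_
      lup := fun n hn => ?_
      lN := ?_
      rN := ?_
      mN := ?_
      mU := ?_
      clu := fun n hn1 hn => ?_
      scl := ?_
      kn := fun n hn => ?_
      d0 := ?_
      dl := fun n hn => ?_
      dn := fun n hn => ?_
      ds := ?_
      dM := ?_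
      pi := fun n _ => ?_
      phi := ?_ }
  · rw [hsg, hsg, hs]
    exact HK.dn n
  · rw [hsg, hsg]
    have h1 : s (n + 1) ≤ s n ^ a := by
      rw [hs]
      exact HK.up n
    exact h1.trans (pow_le_pow_of_le_one (H.pos n).le (hs1 n) (by omega))
  · rw [hsg]
    have h1 := H.hi (N + 1)
    have h2 := hlin (N + 1)
    have h3 : (1 / 2 : ℝ) ^ N1 * 2 ^ e (N + 1) ≥ 1 := by
      have h4 : (2 : ℝ) ^ N1 ≤ 2 ^ e (N + 1) := pow_le_pow_right₀ (by norm_num) (by omega)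
      have h5 : (1 / 2 : ℝ) ^ N1 * 2 ^ N1 = 1 := by
        rw [← mul_pow]
        norm_num
      have h6 : (0 : ℝ) ≤ (1 / 2) ^ N1 := by positivity
      nlinarith
    have h4 : (0 : ℝ) < 2 ^ e (N + 1) := by positivity
    have h5 : s (N + 1) * 2 ^ e (N + 1) ≤ (1 / 2 : ℝ) ^ N1 * 2 ^ e (N + 1) := by linarith
    exact (le_of_mul_le_mul_right h5 h4).trans hN1.le
  · rw [hsg, rt_of_le hn]
    refine (rp_hi (s (n + 1)) 3 (e (n + 1)) (H.pos _) (H.lo _) (by norm_num)).trans (le_of_eq ?_)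
    rw [← Real.rpow_natCast]
    push_cast
    rfl
  · rw [hsg, rt_of_le hn]
    refine le_trans ?_ (rp_lo (s (n + 1)) 4 (e (n + 1)) (H.pos _) (H.hi _) (by norm_num))
    rw [← Real.rpow_natCast]
    refine Real.rpow_le_rpow_of_exponent_le (by norm_num) ?_
    have h1 : (3 * (e (n + 1) + 1) : ℕ) ≤ 4 * e (n + 1) := by
      have := hlin (n + 1)
      omega
    exact_mod_cast h1
  · rw [hsg, lt_of_le hn]
    refine (rp_hi (s (n + 1)) 5 (e (n + 1)) (H.pos _) (H.lo _) (by norm_num)).trans (le_of_eq ?_)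
    rw [← Real.rpow_natCast]
    push_cast
    rfl
  · rw [hsg, lt_of_le hn]
    refine le_trans ?_ (rp_lo (s (n + 1)) 6 (e (n + 1)) (H.pos _) (H.hi _) (by norm_num))
    rw [← Real.rpow_natCast]
    refine Real.rpow_le_rpow_of_exponent_le (by norm_num) ?_
    have h1 : (5 * (e (n + 1) + 1) : ℕ) ≤ 6 * e (n + 1) := by
      have := hlin (n + 1)
      omega
    exact_mod_cast h1
  · have h1 : lt 5 a m0 e N N + 6 ≤ mt 5 a e N := by
      rw [lt_of_le le_rfl]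
      unfold ANP.H61.mt
      have h2 : 2 * (5 * (e (N + 1) + 1)) ≤ a * (5 * (e (N + 1) + 1)) :=
        Nat.mul_le_mul_right _ ha2
      have h3 := hlin (N + 1)
      omega
    omega
  · rw [rt_of_gt (Nat.lt_succ_self N)]
    omega
  · rw [hsg]
    refine (rp_hi (s (N + 1)) 5 (e (N + 1)) (H.pos _) (H.lo _) (by norm_num)).trans ?_
    rw [hmtN]
    refine Real.rpow_le_rpow_of_exponent_le (by norm_num) ?_
    have h1 : (1 : ℝ) ≤ a := by exact_mod_cast (by omega : 1 ≤ a)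
    have h2 : (0 : ℝ) ≤ 5 * ((e (N + 1) : ℝ) + 1) := by positivity
    nlinarith
  · rw [hsg]
    refine le_trans ?_ (rp_lo (s (N + 1)) (6 * ((a : ℝ) + 1)) (e (N + 1)) (H.pos _) (H.hi _)
      (by positivity))
    rw [hmtN]
    refine Real.rpow_le_rpow_of_exponent_le (by norm_num) ?_
    have h1 : (5 : ℝ) ≤ e (N + 1) := by
      have h2 := hlin (N + 1)
      exact_mod_cast (by omega : 5 ≤ e (N + 1))
    have h2 : (0 : ℝ) ≤ a := by positivity
    nlinarith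
  · rw [hsg]
    obtain ⟨m, rfl⟩ : ∃ m, n = m + 1 := ⟨n - 1, by omega⟩
    have h1 := clu H (m0 := m0) (C0 := 5) d J N c1 hc1.le haa hvc m hn
    rw [Nat.add_sub_cancel]
    have h2 : s (m + 2) ^ (-c1) ≤ s (m + 2) ^ (-c₁) := rp_mono _ (H.pos _) (hs1 _) _ _ hc1le
    refine le_trans ?_ (h1.trans h2)
    have h3 : (3 ^ d * J) * (6 * 2 ^ lt 5 a m0 e N m + 1) ^ d ≤
        (3 ^ d * J) ^ 2 * (6 * 2 ^ lt 5 a m0 e N m + 1) ^ d := by
      refine Nat.mul_le_mul_right _ ?_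
      have h4 : 1 ≤ 3 ^ d * J := Nat.mul_pos (by positivity) (by omega)
      nlinarith
    exact_mod_cast h3
  · refine scl_scl H d J N _ hC h3a hv5 hvm (by omega) ?_
    rw [← hm0]
    exact (Nat.lt_two_pow_self).le
  · unfold KN
    rw [if_pos hn, hsg]
  · unfold DN
    rw [if_pos rfl]
  · rw [hsg]
    exact hDl n hn
  · have h1 : n ≠ 0 := by omega
    unfold DN
    rw [if_neg h1]
  · exact_mod_cast hDs
  · have h1 : (0 : ℝ) ≤ ∑ i ∈ range (N + 2), (3 ^ d * (DN d J 5 a m0 (6 / 5) s e N i : ℝ)) :=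
      Finset.sum_nonneg fun i _ => by positivity
    linarith
  · have h1 := hpi2 n
    have h2 := hq1 n
    linarith
  · refine le_trans (H72.phi_mono ?_ ?_ _ _) hphi
    · intro c
      exact mul_nonneg (hpf0 _) (hnum0 _)
    · intro c
      exact hpi c.1
  · rw [hsg]
    exact qq_fin H (m0 := m0) d N hC hvm hmono J hJ A' hAA
      (fun n => 2 * pf w th kk β N n *
        ((kk (n + 1) : ℝ) - kk n + ((2 ^ lt 5 a m0 e N n : ℕ) : ℝ) ^ d))
      (fun n => mul_nonneg (mul_nonneg (by norm_num) (hpf0 _)) (hnum0 _)) hpi2 A hA5 n hn B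

/-- the same with natural exponents -/
theorem scl2n (d : ℕ) (th : ℝ≥0) (c₁ : ℝ) (hd : 3 ≤ d) (hth : 1 / 2 ≤ th) (hth1 : th < 1)
    (hc₁ : 0 < c₁) :
    ∃ (C₁ : ℝ) (α J : ℕ), 4 * d + 4 ≤ α ∧ ∀ β : ℝ, 0 < β → ∀ A : ℕ,
    ∃ w₁ : ℝ, 0 < w₁ ∧ w₁ ≤ 1 ∧ ∀ (w : ℝ≥0) (t : ℝ) (M₀ : ℕ), 0 < w → (w : ℝ) ≤ w₁ → 0 < t →
      ∃ (N μ : ℕ) (kk l r Kn Dn : ℕ → ℕ), 2 ≤ N ∧ M₀ ≤ 2 ^ μ ∧
        Scal d th c₁ C₁ α J β w t N μ kk l r Kn Dn ∧
        ∀ n ≤ N, ∀ B, ANP.H72.QQ (Gt d μ J N l r).ch J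
          (fun i => 2 * pf w th kk β N i.1 *
            ((kk (i.1 + 1) : ℝ) - kk i.1 + ((2 ^ l i.1 : ℕ) : ℝ) ^ d)) n B ≤
          sg w th kk (n + 1) ^ A := by
  obtain ⟨C₁, α, J, h1, h⟩ := scl2 d th c₁ hd hth hth1 hc₁
  refine ⟨C₁, α, J, h1, fun β hβ A => ?_⟩
  obtain ⟨w₁, h2, h3, h⟩ := h β hβ (A : ℝ)
  refine ⟨w₁, h2, h3, fun w t M₀ hw hw1 ht => ?_⟩
  obtain ⟨N, μ, kk, l, r, Kn, Dn, h4, h5, h6, h7⟩ := h w t M₀ hw hw1 ht
  refine ⟨N, μ, kk, l, r, Kn, Dn, h4, h5, h6, fun n hn B => ?_⟩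
  have h8 := h7 n hn B
  rwa [Real.rpow_natCast] at h8

end Pool.Agent.ACX.H22
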